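import Pool.Agent.X92.HD9

/-!
MP_4874ca_an, Q1 (negated form): there is a planar domain `D` for which `H²(D)` contains
nonconstant functions but is finite-dimensional.
-/

open Set

namespace Pool.Agent.Results.MP_4874ca_an.FiniteDimHardy

/-- The Hardy space `H²(D)` of an open set `D ⊆ ℂ`: the functions `f : D → ℂ` which are holomorphic
(i.e. `f` is the restriction to `D` of a function which is complex differentiable on `D`) and for
which there is a function `u`, harmonic on `D`, with `|f|² ≤ u` on `D`. It is a complex subspace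
of the space of all functions `D → ℂ`. -/
def H2 (D : Set ℂ) : Submodule ℂ (D → ℂ) where
  carrier := {f | ∃ F : ℂ → ℂ, DifferentiableOn ℂ F D ∧ (∀ z : D, f z = F z) ∧
    ∃ u : ℂ → ℝ, InnerProductSpace.HarmonicOnNhd u D ∧ ∀ z ∈ D, ‖F z‖ ^ 2 ≤ u z}
  add_mem' := by
    rintro f g ⟨F, hF, hfF, u, hu, hub⟩ ⟨G, hG, hgG, v, hv, hvb⟩
    refine ⟨fun z => F z + G z, hF.add hG, fun z => by rw [Pi.add_apply, hfF, hgG],
      (2 : ℝ) • u + (2 : ℝ) • v, (hu.const_smul).add (hv.const_smul), fun z hz => ?_⟩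
    have h1 : ‖F z + G z‖ ≤ ‖F z‖ + ‖G z‖ := norm_add_le _ _
    have h2 : ‖F z + G z‖ ^ 2 ≤ (‖F z‖ + ‖G z‖) ^ 2 := by gcongr
    have h3 := hub z hz
    have h4 := hvb z hz
    simp only [Pi.add_apply, Pi.smul_apply, smul_eq_mul]
    nlinarith [sq_nonneg (‖F z‖ - ‖G z‖)]
  zero_mem' := ⟨fun _ => 0, differentiableOn_const _, fun _ => rfl, fun _ => 0,
    InnerProductSpace.harmonicOnNhd_const _, fun z _ => by simp⟩
  smul_mem' := by
    rintro a f ⟨F, hF, hfF, u, hu, hub⟩
    refine ⟨fun z => a * F z, hF.const_mul a, fun z => by rw [Pi.smul_apply, hfF, smul_eq_mul],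
      (‖a‖ ^ 2 : ℝ) • u, hu.const_smul, fun z hz => ?_⟩
    rw [norm_mul, mul_pow, Pi.smul_apply, smul_eq_mul]
    exact mul_le_mul_of_nonneg_left (hub z hz) (by positivity)

open X92.HD in
/-- **Finite-dimensional, nontrivial `H²(D)`.** There is a planar domain `D` (nonempty, open and
connected) such that `H²(D)` contains a nonconstant function and `2 ≤ dim H²(D) < ∞`. -/
theorem result : ∃ D : Set ℂ, IsOpen D ∧ IsConnected D ∧
    (∃ f ∈ H2 D, ∃ z w : D, f z ≠ f w) ∧
    FiniteDimensional ℂ (H2 D) ∧ 2 ≤ Module.finrank ℂ (H2 D) := by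
  have hN : (1000 : ℕ) ≠ 0 := by norm_num
  have h0 : (0 : ℂ) ∈ D 1000 := mem_D_disc hN (by simp)
  have h1 : ((1 / 2 : ℝ) : ℂ) ∈ D 1000 := ray_mem 1000 (by norm_num)
  have hid : (fun z : D 1000 => (z : ℂ)) ∈ H2 (D 1000) := by
    refine ⟨fun z => z, differentiableOn_id, fun _ => rfl,
      (200 : ℝ) • W 1000 + fun _ => (20 : ℝ),
      ((W_harmonic (by norm_num)).const_smul).add (InnerProductSpace.harmonicOnNhd_const _),
      fun z hz => ?_⟩
    exact growth le_rfl hz
  have hone : (fun _ : D 1000 => (1 : ℂ)) ∈ H2 (D 1000) :=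
    ⟨fun _ => 1, differentiableOn_const _, fun _ => rfl, fun _ => 1,
      InnerProductSpace.harmonicOnNhd_const _, fun z _ => by simp⟩
  have hfin : FiniteDimensional ℂ (H2 (D 1000)) := by
    obtain ⟨k₀, hk₀⟩ := poly hN
    have hle : H2 (D 1000) ≤ Submodule.span ℂ
        (range (fun k : Fin k₀ => (fun z : D 1000 => (z : ℂ) ^ (k : ℕ)))) := by
      rintro f ⟨F, hF, hfF, u, hu, hub⟩
      obtain ⟨c, hc⟩ := hk₀ F u hF hu hub
      have : f = ∑ k : Fin k₀, c k • (fun z : D 1000 => (z : ℂ) ^ (k : ℕ)) := by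
        ext z
        rw [hfF, hc z z.2, Finset.sum_apply, Finset.sum_range]
        rfl
      rw [this]
      exact Submodule.sum_mem _ (fun k _ => Submodule.smul_mem _ _
        (Submodule.subset_span ⟨k, rfl⟩))
    have : FiniteDimensional ℂ (Submodule.span ℂ
        (range (fun k : Fin k₀ => (fun z : D 1000 => (z : ℂ) ^ (k : ℕ))))) :=
      FiniteDimensional.span_of_finite ℂ (finite_range _)
    exact Submodule.finiteDimensional_of_le hle
  refine ⟨D 1000, isOpen_D hN, ⟨⟨0, h0⟩, isPreconnected_D hN⟩,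
    ⟨_, hid, ⟨0, h0⟩, ⟨_, h1⟩, ?_⟩, hfin, ?_⟩
  · simp
  · have hli : LinearIndependent ℂ ![(⟨_, hone⟩ : H2 (D 1000)), ⟨_, hid⟩] := by
      rw [LinearIndependent.pair_iff]
      intro s t hst
      have e := congrArg Subtype.val hst
      have e0 := congrFun e ⟨0, h0⟩
      have e1 := congrFun e ⟨_, h1⟩
      simp at e0 e1
      rw [e0] at e1
      simp at e1
      exact ⟨e0, e1⟩
    have := hli.fintype_card_le_finrank
    simpa using this

end Pool.Agent.Results.MP_4874ca_an.FiniteDimHardy
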